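import Mathlib
import Pool.Agent.Lib.MP_679d9b_al.AltMain

/-!
In an infinite simple locally finite group with a Kegel cover by alternating groups the centralizer
of an element of prime power order is never linear.
-/

set_option autoImplicit false

namespace Pool.Agent.Results.MP_679d9b_al.AlternatingType

open Pool.Agent.Lib.MP_679d9b_al.Alt

theorem result (G : Type) [Group G] [Infinite G] (hs : IsSimpleGroup G)
    (hlf : ∀ s : Finset G, (Subgroup.closure (s : Set G) : Set G).Finite)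
    (hcov : ∀ F : Subgroup G, Finite F → ∃ (H : Subgroup G) (hFH : F ≤ H) (m : ℕ)
      (φ : H →* Equiv.Perm (Fin m)), Finite H ∧ alternatingGroup (Fin m) ≤ φ.range ∧
        ∀ f : F, φ (Subgroup.inclusion hFH f) = 1 → f = 1)
    (x : G) (p k : ℕ) (hp : p.Prime) (hx : x ^ p ^ k = 1)
    (K : Type) [Field K] (n : ℕ)
    (ρ : Subgroup.centralizer ({x} : Set G) →* Matrix.GeneralLinearGroup (Fin n) K) :
    ¬ Function.Injective ρ := by
  refine fun hρ => of_cover hlf (fun F hF => ?_) hp hx _ (noChain_of_linear x ρ hρ)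
  obtain ⟨H, hFH, m, φ, h1, h2, h3⟩ := hcov F hF
  refine ⟨⟨H, m, φ, h1, h2⟩, hFH, fun f hf h4 => ?_⟩
  refine le_of_le_of_eq ?_ (Lv.deg_eq ⟨H, m, φ, h1, h2⟩ ⟨f, hFH hf⟩).symm
  exact Finset.card_pos.2 (Finset.nonempty_iff_ne_empty.2 fun h =>
    h4 (congrArg Subtype.val (h3 ⟨f, hf⟩ (Equiv.Perm.support_eq_empty_iff.1 h))))

end Pool.Agent.Results.MP_679d9b_al.AlternatingType
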