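import Mathlib
import Pool.Agent.Lib.MP_679d9b_al.KG.All

/-!
A simple locally finite group with a Kegel cover whose factors are alternating, classical or
linear of bounded degree, and whose kernels have composition factors with solvable outer
automorphism groups, is linear as soon as the centralizer of one element is linear.
-/

set_option autoImplicit false

namespace Pool.Agent.Results.MP_679d9b_al.KnownFactors

open Pool.Agent.Lib.MP_679d9b_al

/-- The outer automorphism group is solvable. -/
def OutSolvable (X : Type) [Group X] : Prop :=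
  ∃ n, derivedSeries (MulAut X) n ≤ (MulAut.conj : X →* MulAut X).range

section Forms
variable {K V : Type} [Field K] [AddCommGroup V] [Module K V]

/-- `I` is the isometry group of `b`. -/
def Isom (I : Subgroup (V ≃ₗ[K] V)) (b : V → V → K) : Prop :=
  ∀ g, g ∈ I ↔ ∀ x y, b (g x) (g y) = b x y

/-- `b` is nondegenerate and hermitian for the involution `σ`. -/
def Herm (σ : K →+* K) (b : V → V → K) : Prop :=
  σ ≠ RingHom.id K ∧ (∀ a, σ (σ a) = a) ∧ (∀ x y, b y x = σ (b x y)) ∧
    ∀ x, (∀ y, b x y = 0) → x = 0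

/-- The isometry group of a nondegenerate alternating form. -/
def IsSp (I : Subgroup (V ≃ₗ[K] V)) : Prop :=
  ∃ B : LinearMap.BilinForm K V, B.IsAlt ∧ B.Nondegenerate ∧ Isom I fun x y => B x y

/-- The isometry group of a nondegenerate hermitian form. -/
def IsGU (I : Subgroup (V ≃ₗ[K] V)) : Prop :=
  ∃ (σ : K →+* K) (B : V →ₛₗ[σ] V →ₗ[K] K) (b : V → V → K),
    (∀ x y, B x y = b x y) ∧ Herm σ b ∧ Isom I b

/-- The isometry group of a quadratic form with nondegenerate polar form. -/
def IsGO (I : Subgroup (V ≃ₗ[K] V)) : Prop :=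
  ∃ Q : QuadraticForm K V, (∀ x, (∀ y, QuadraticMap.polar Q x y = 0) → x = 0) ∧
    ∀ g, g ∈ I ↔ ∀ x, Q (g x) = Q x

/-- Scalar maps. -/
def IsScalar (y : V ≃ₗ[K] V) : Prop := ∃ c : K, ∀ v, y v = c • v

end Forms

/-- `X` is the derived group of `I` modulo its elements which satisfy `S`. -/
def DerivedMod {Γ : Type} [Group Γ] (I : Subgroup Γ) (S : Γ → Prop) (X : Type) [Group X] : Prop :=
  ∃ π : (⁅I, I⁆ : Subgroup Γ) →* X, Function.Surjective π ∧ ∀ y, π y = 1 ↔ S y

/-- The derived group, modulo scalars, of a general linear, symplectic, unitary or orthogonal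
group over a finite field. -/
def IsClassical (X : Type) [Group X] : Prop :=
  ∃ (K V : Type) (_ : Field K) (_ : Finite K) (_ : AddCommGroup V) (_ : Module K V)
    (_ : FiniteDimensional K V) (I : Subgroup (V ≃ₗ[K] V)),
      (I = ⊤ ∨ IsSp I ∨ IsGU I ∨ IsGO I) ∧ DerivedMod I IsScalar X

/-- Linear of degree at most `N` over some field. -/
def LinearDeg (N : ℕ) (X : Type) [Group X] : Prop :=
  ∃ (K : Type) (_ : Field K) (n : ℕ) (ρ : X →* Matrix.GeneralLinearGroup (Fin n) K),
    n ≤ N ∧ Function.Injective ρ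

/-- Alternating, classical, or linear of degree at most `N`. -/
def Known (N : ℕ) (X : Type) [Group X] : Prop :=
  (∃ n, Nonempty (X ≃* alternatingGroup (Fin n))) ∨ IsClassical X ∨ LinearDeg N X

/-- Every nonabelian composition factor has a solvable outer automorphism group. -/
def SchreierFactors (M : Type) [Group M] : Prop :=
  ∀ T : Subgroup M, T.IsSubnormal → ∀ (Y : Type) [Group Y] (π : T →* Y), IsSimpleGroup Y →
    Function.Surjective π → (∃ a b : Y, a * b ≠ b * a) → OutSolvable Y

/-- A Kegel cover with known factors, for one bound `N`, whose kernels have Schreier factors. -/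
def Covered (G : Type) [Group G] : Prop :=
  ∃ N : ℕ, ∀ F : Subgroup G, Finite F → ∃ (H : Subgroup G) (X : Type) (_ : Group X) (φ : H →* X),
    Finite H ∧ F ≤ H ∧ IsSimpleGroup X ∧ Function.Surjective φ ∧
      (∀ h : H, (h : G) ∈ F → φ h = 1 → h = 1) ∧ Known N X ∧ SchreierFactors φ.ker

theorem result (G : Type) [Group G] (hs : IsSimpleGroup G)
    (hlf : ∀ s : Finset G, (Subgroup.closure (s : Set G) : Set G).Finite)
    (hK : Covered G) (x : G) (L : Type) [Field L] (m : ℕ)
    (ρ : Subgroup.centralizer ({x} : Set G) →* Matrix.GeneralLinearGroup (Fin m) L)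
    (hρ : Function.Injective ρ) :
    ∃ (K : Type) (_ : Field K) (n : ℕ) (σ : G →* Matrix.GeneralLinearGroup (Fin n) K),
      Function.Injective σ := by
  obtain ⟨N, hN⟩ := hK
  refine KG.final KG.altA KG.finA KG.linStmt KG.resA KG.locA KG.alvStmt hlf N
    (fun F hF => ?_) x _ (Alt.noChain_of_linear x ρ hρ)
  obtain ⟨H, X, _, φ, h1, h2, h3, h4, h5, h6, h7⟩ := hN F hF
  refine ⟨H, h1, h2, X, _, h3, φ, h4, h5, KG.sch_of fun T a Y _ b π => h7 T a Y π b, ?_⟩
  obtain a2 | ⟨K, V, _, _, _, _, _, I, a2, π, a3, a4⟩ | a2 := h6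
  · exact Or.inl a2
  · refine Or.inr (Or.inl ⟨K, V, _, inferInstance, _, _, inferInstance, I, π, ?_, a3, a4⟩)
    obtain ⟨b1, b2, b3⟩ := KG.convStmt K V I
    rcases a2 with h | ⟨B, c1, c2, c3⟩ | ⟨σ, B, b, c0, ⟨c1, c2, c3, c4⟩, c5⟩ | ⟨Q, c1, c2⟩
    · exact Or.inl h
    · exact b1 B c1 c2 c3
    · obtain rfl : (fun x y => B x y) = b := funext₂ c0
      exact b2 σ B c1 c2 c3 c4 c5
    · exact b3 Q c1 c2
  · exact Or.inr (Or.inr a2)

/-- Kegel's lemma: if all finite nonabelian simple groups are known and have solvable outer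
automorphism groups, every infinite simple locally finite group is covered. -/
theorem covered_of_known (N : ℕ) (h : ∀ (X : Type) [Group X], Finite X → IsSimpleGroup X →
    (∃ a b : X, a * b ≠ b * a) → Known N X ∧ OutSolvable X) (G : Type) [Group G] [Infinite G]
    [IsSimpleGroup G] (hlf : ∀ s : Finset G, (Subgroup.closure (s : Set G) : Set G).Finite) :
    Covered G := by
  refine ⟨N, fun F _ => ?_⟩
  obtain ⟨H, h1, h2, X, _, h3, φ, h4, h5, h6⟩ := KG.kegel' hlf F
  exact ⟨H, X, _, φ, h1, h2, h3, h4, h5, (h X (Finite.of_surjective φ h4) h3 h6).1,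
    fun T _ Y _ π a b c => (h Y (Finite.of_surjective π b) a c).2⟩

end Pool.Agent.Results.MP_679d9b_al.KnownFactors
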