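import Mathlib
import Pool.Agent.Lib.MP_679d9b_al.PT.All

/-!
A simple locally finite group covered by finite groups which map onto projective special linear
groups in characteristic `p`, in the form that holds for the groups of `p`-type, is finitary linear
as soon as the centralizer of one element is linear.
-/

set_option autoImplicit false

namespace Pool.Agent.Results.MP_679d9b_al.PType

open Pool.Agent.Lib.MP_679d9b_al

/-- Some normal subgroup `R` maps onto the target and its commutator with the kernel is a
`p`-group. -/
def Supp (p : ℕ) {H S : Type} [Group H] [Group S] (φ : H →* S) : Prop :=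
  ∃ R : Subgroup H, R.Normal ∧ R.map φ = ⊤ ∧ IsPGroup p (⁅φ.ker, R⁆ : Subgroup H)

/-- Every finite subgroup lies in a finite subgroup with such a map onto a projective special
linear group in characteristic `p` whose kernel it meets trivially. -/
def Covered (p : ℕ) (G : Type) [Group G] : Prop :=
  ∀ F : Subgroup G, Finite F → ∃ (H : Subgroup G) (hFH : F ≤ H) (n : ℕ) (K : Type)
    (_ : Field K) (_ : Finite K) (_ : CharP K p)
    (φ : H →* Matrix.ProjectiveSpecialLinearGroup (Fin n) K),
      Finite H ∧ Supp p φ ∧ ∀ f : F, φ (Subgroup.inclusion hFH f) = 1 → f = 1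

/-- The map `T - 1` has finite rank. -/
def FinRank {K V : Type} [Field K] [AddCommGroup V] [Module K V] (T : V →ₗ[K] V) : Prop :=
  FiniteDimensional K (LinearMap.range (T - LinearMap.id))

/-- A faithful linear representation in which every `g - 1` has finite rank. -/
def IsFinitary (G : Type) [Group G] : Prop :=
  ∃ (K : Type) (_ : Field K) (V : Type) (_ : AddCommGroup V) (_ : Module K V)
    (σ : G →* (V ≃ₗ[K] V)), Function.Injective σ ∧ ∀ g, FinRank (σ g : V →ₗ[K] V)

theorem result (G : Type) [Group G] (hs : IsSimpleGroup G)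
    (hlf : ∀ s : Finset G, (Subgroup.closure (s : Set G) : Set G).Finite)
    (p : ℕ) (hp : p.Prime) (hcov : Covered p G) (x : G) (L : Type) [Field L] (m : ℕ)
    (ρ : Subgroup.centralizer ({x} : Set G) →* Matrix.GeneralLinearGroup (Fin m) L)
    (hρ : Function.Injective ρ) : IsFinitary G := by
  have := Fact.mk hp
  refine PT.finitary (p := p) hlf (fun F hF => ?_) x _ (Alt.noChain_of_linear x ρ hρ)
  obtain ⟨H, hFH, n, K, _, _, _, φ, h1, ⟨R, h2, h3, h4⟩, h5⟩ := hcov F hF
  refine ⟨{ H := H, n := n, K := K, φ := φ, R := R, surj := h3, cen := h4 }, hFH,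
    fun f hf h6 => congrArg Subtype.val (h5 ⟨f, hf⟩ ?_)⟩
  rwa [PT.Lv.r_eq _ (hFH hf)] at h6

end Pool.Agent.Results.MP_679d9b_al.PType
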